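import Mathlib
import Pool.Agent.Results.MP_17f4cb_nt.OddMaass

namespace Pool.Agent.Results.MP_5f72fe_nt.NoTwist

open Complex Filter Topology Pool.Agent.Results.MP_17f4cb_nt.OddMaass

theorem result : ∃ (U : ℂ → ℂ) (μ : ℂ) (lam : ℕ → ℂ), IsHeckeMaass U μ lam ∧
    (∀ d, IsQuad d → ∃ L, IsTwistL lam d.2 L ∧ L (1 / 2) = 0) ∧
    ¬ ∃ c : ℝ, 0 < c ∧ ∀ᶠ x : ℝ in atTop, c * x ≤ countNonzero lam x := by
  obtain ⟨U, μ, lam, h, key, -⟩ := Pool.Agent.Results.MP_17f4cb_nt.OddMaass.result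
  refine ⟨U, μ, lam, h, key, ?_⟩
  rintro ⟨c, hc, hl⟩
  have e : ∀ x, countNonzero lam x = 0 := fun x => by
    unfold countNonzero
    refine (congrArg Set.ncard (Set.eq_empty_iff_forall_notMem.2 ?_)).trans (Set.ncard_empty _)
    rintro d ⟨h1, -, L, h2, h3⟩
    obtain ⟨L', h4, h5⟩ := key d h1
    exact h3 (uniq h2 h4 ▸ h5)
  obtain ⟨x, h1, h2⟩ := (hl.and (eventually_gt_atTop 0)).exists
  rw [e, Nat.cast_zero] at h1
  nlinarith

end Pool.Agent.Results.MP_5f72fe_nt.NoTwist
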